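import Mathlib
import Pool.Agent.H515Z.RotorDefs
import Pool.Agent.H515Z.RotorMain

set_option autoImplicit false

namespace Pool.Agent.Results.MP_b041da_pr.AlignedRate

open Pool.Agent.H515Z.Rotor

/-- For every `d ≥ 3` and every rotor mechanism `m` on `ℤ^d` (each `m x` is a single cycle on the
`2d` directions), the fraction of escapes among the first `n` particles, started from the
configuration with all rotors equal to `e_d`, tends to the escape probability of simple random
walk. -/
theorem result (d : ℕ) (hd : 3 ≤ d) (m : Site d → Equiv.Perm (Dir d))
    (hm : ∀ x, (m x).IsCycleOn Set.univ) :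
    Filter.Tendsto
      (fun n : ℕ => (escapes m (fun _ => (⟨d - 1, by omega⟩, true)) n : ℝ) / n)
      Filter.atTop (nhds (escapeProb d)) :=
  escape_rate hm _ ⟨0, by omega⟩ (fun h => by have := congrArg Fin.val h; simp at this; omega)

end Pool.Agent.Results.MP_b041da_pr.AlignedRate
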